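import Pool.Agent.T6.H45.SYZ.All

/-!
# Torsion line bundles on primitive symplectic varieties, and the SYZ statement

Definitions used, besides Mathlib:

* `latt`, `IsTorusQuotient`, `IsForm`, `IsPrimitiveSymplectic`, `LineBundle` (with `pow`, `IsSection`
  and `IsTrivial`) in `Pool.Agent.W594.SYZ.Defs2`, and `IsHermitian`, `IsChernForm`, `IsNefForm`,
  `IsPositiveForm`, `IsDegenerateForm`, `IsLagrangianFibration` and `Induces` in
  `Pool.Agent.W594.SYZ.TQDefs`, for quotients `X = V / Γ` of complex tori by finite groups;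
* `H1Trivial` (that is, `H_1(X, ℤ) = 0`), `SYZHolds` (all nontrivial nef line bundles `L` on `X` with
  `q_X(L) = 0` induce a holomorphic Lagrangian fibration) and `IsCounterexample` in
  `Pool.Agent.T6.H45.SYZ.Crit`.
-/

set_option autoImplicit false

namespace Pool.Agent.Results.MP_63735c_ag.TorsionLineBundles

open Pool.Agent.W594.SYZ2 Pool.Agent.T6.H45.SYZ

universe u

/-- *Criterion.*  Let `X = V / Γ` be a primitive symplectic variety of positive dimension that is the
quotient of a complex torus by a finite group.  All line bundles `L` on `X` that are nontrivial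
(`L ≇ O_X`), nef and have `q_X(L) = 0` induce a holomorphic Lagrangian fibration if and only if
`H_1(X, ℤ) = 0`.  This is the case if `dim X = 2`.

*Counterexamples.*  For every `n ≥ 2` there are a primitive symplectic variety `X` of dimension `2 n`
(a quotient of a complex torus by a finite group) and a line bundle `L` on `X`, with `L ≇ O_X` and
`L ^ 2 ≅ O_X`, that is nef with `q_X(L) = 0`, such that any two global sections of a power of `L` are
proportional and `L` induces no holomorphic Lagrangian fibration. -/
theorem result :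
    (∀ (V : Type u) [NormedAddCommGroup V] [NormedSpace ℂ V] [FiniteDimensional ℂ V]
      [Nontrivial V] (Γ : Subgroup (V ≃ᵃ[ℂ] V)), IsPrimitiveSymplectic Γ →
        (SYZHolds Γ ↔ H1Trivial Γ) ∧ (Module.finrank ℂ V = 2 → SYZHolds Γ)) ∧
    (∀ n : ℕ, 2 ≤ n →
      ∃ (V : Type) (_ : NormedAddCommGroup V) (_ : NormedSpace ℂ V) (Γ : Subgroup (V ≃ᵃ[ℂ] V))
        (L : LineBundle Γ), IsCounterexample Γ (2 * n) L) :=
  ⟨fun V _ _ _ _ Γ hΓ => ⟨syz_iff hΓ, fun h2 => (syz_iff hΓ).mpr (h1_dim_two hΓ h2)⟩, exists_all⟩

end Pool.Agent.Results.MP_63735c_ag.TorsionLineBundles
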